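import Pool.Agent.K9h53.P5.SumUp

set_option autoImplicit false

/-!
# The sizes of the summands in `n = k + m` with `p_k ^ 2 - 2` and `p_m ^ 2 - 2` prime

For almost all `n` both summands have to be at least of the order `log n * log log n`, even without the third
condition of the problem.
-/

namespace Pool.Agent.Results.MP_04ff0f_nt.SizeOfSummands

open Filter

/-- the `j`-th prime, `p 1 = 2` -/
noncomputable def p (j : ℕ) : ℕ := Nat.nth Nat.Prime (j - 1)

/-- the `n ≤ N` with a representation `n = k + m` with `min k m ≤ M` and `p_k ^ 2 - 2`, `p_m ^ 2 - 2` prime -/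
def SmallSummand (N : ℕ) (M : ℝ) : Set ℕ :=
  {n | 1 ≤ n ∧ n ≤ N ∧ ∃ k m : ℕ, 1 ≤ k ∧ 1 ≤ m ∧ k + m = n ∧ ((min k m : ℕ) : ℝ) ≤ M ∧
    (p k ^ 2 - 2).Prime ∧ (p m ^ 2 - 2).Prime}

/-- **The sizes of the summands.** -/
theorem result (δ : ℝ) (hδ : 0 < δ) : ∃ c : ℝ, 0 < c ∧ ∀ᶠ N : ℕ in atTop,
    ((SmallSummand N (c * Real.log N * Real.log (Real.log N))).ncard : ℝ) ≤ δ * N :=
  Pool.Agent.K9h53.P5.sum_upper δ hδ

end Pool.Agent.Results.MP_04ff0f_nt.SizeOfSummands
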